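import Pool.Agent.Helper11_LPK.CTR
import Pool.Agent.Helper11_LPV.CTV
import Pool.Agent.Helper15_LPK.PAI
import Pool.Agent.Helper15_LPV.PAV
import Pool.Agent.Helper1_LPK.FTM
import Pool.Agent.Helper21_LPK.JDD
import Pool.Agent.Helper23_LPK.UPB
import Pool.Agent.Helper23_LPV.UPV
import Pool.Agent.Helper25_LPK.FTP
import Pool.Agent.Helper26_LPK.DUA
import Pool.Agent.Helper27_LPK.EVA
import Pool.Agent.Helper30_LPK.FSM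
import Pool.Agent.Helper30_LPV.FSV
import Pool.Agent.Helper36_LPK.PSZ
import Pool.Agent.Helper36_LPV.PSG
import Pool.Agent.Helper39_LPK.PS2
import Pool.Agent.Helper39_LPK.TOT
import Pool.Agent.Helper39_LPV.TOV
import Pool.Agent.Helper3_LPK.SUM
import Pool.Agent.Helper45_LPK.MLL
import Pool.Agent.Helper46_LPK.GPO
import Pool.Agent.Helper4_LPK.QDD
import Pool.Agent.Helper50_LPK.PSL
import Pool.Agent.Helper50_LPV.FIS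
import Pool.Agent.Helper50_LPV.WPO
import Pool.Agent.Helper54_LPK.CBN
import Pool.Agent.Helper57_LPV.WSQ
import Pool.Agent.Helper64_LPK.PS0
import Pool.Agent.Helper66_LPK.BAS
import Pool.Agent.Helper75_LPK.PLM
import Pool.Agent.Helper76_LPK.RNK
import Pool.Agent.Helper77_LPK.BDD
import Pool.Agent.Helper81_LPK.LIN
import Pool.Agent.Helper81_LPV.LIV
import Pool.Agent.Helper88_LPK.SCL
import Pool.Agent.Helper88_LPV.WSL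
import Pool.Agent.Helper97_LPK.HAD
import Pool.Agent.Helper98_LPK.SPL

/-!
# MP_37fa12_co: composition of the rows of LPK and LPV (generated)
-/

namespace Pool.Agent.LPV.H90C

theorem c_LPK_Rnk : Pool.Agent.LPK.RnkStmt :=
  Pool.Agent.LPK.H76.rnk 
theorem c_LPK_Bas : Pool.Agent.LPK.BasStmt :=
  Pool.Agent.LPK.H66.bas 
theorem c_LPK_Scl : Pool.Agent.LPK.SclStmt :=
  Pool.Agent.LPK.H88.scl 
theorem c_LPK_Dua : Pool.Agent.LPK.DuaStmt :=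
  Pool.Agent.LPK.H26.dua 
theorem c_LPK_Spl : Pool.Agent.LPK.SplStmt :=
  Pool.Agent.LPK.H98.spl 
theorem c_LPK_Bdd : Pool.Agent.LPK.BddStmt :=
  Pool.Agent.LPK.H77.bdd 
theorem c_LPK_Sum : Pool.Agent.LPK.SumStmt :=
  Pool.Agent.LPK.H3.sum c_LPK_Bdd c_LPK_Dua
theorem c_LPV_Fis : Pool.Agent.LPV.FisStmt :=
  Pool.Agent.LPV.H50.fis 
theorem c_LPV_Psg : Pool.Agent.LPV.PsgStmt :=
  Pool.Agent.LPV.H36.psg c_LPK_Sum c_LPV_Fis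
theorem c_LPV_Wsq : Pool.Agent.LPV.WsqStmt :=
  Pool.Agent.LPV.H57.wsq c_LPK_Dua c_LPK_Sum
theorem c_LPV_Wsl : Pool.Agent.LPV.WslStmt :=
  Pool.Agent.LPV.H88.wsl c_LPK_Dua c_LPK_Sum c_LPV_Fis
theorem c_LPV_Fsv : Pool.Agent.LPV.FsvStmt :=
  Pool.Agent.LPV.H30.fsv c_LPK_Dua c_LPK_Sum c_LPV_Psg c_LPV_Wsq c_LPV_Wsl
theorem c_LPK_Eva : Pool.Agent.LPK.EvaStmt :=
  Pool.Agent.LPK.H27.eva 
theorem c_LPK_Jdd : Pool.Agent.LPK.JddStmt :=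
  Pool.Agent.LPK.H21.jdd 
theorem c_LPK_Qdd : Pool.Agent.LPK.QddStmt :=
  Pool.Agent.LPK.H4.qdd c_LPK_Eva
theorem c_LPK_Ftm : Pool.Agent.LPK.FtmStmt :=
  Pool.Agent.LPK.H1.ftm c_LPK_Eva c_LPK_Bdd c_LPK_Jdd c_LPK_Qdd
theorem c_LPK_Ftp : Pool.Agent.LPK.FtpStmt :=
  Pool.Agent.LPK.H25.ftp c_LPK_Eva c_LPK_Bdd c_LPK_Jdd c_LPK_Ftm
theorem c_LPK_Psz : Pool.Agent.LPK.PszStmt :=
  Pool.Agent.LPK.H36.psz 
theorem c_LPK_Psl : Pool.Agent.LPK.PslStmt :=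
  Pool.Agent.LPK.H50.psl c_LPK_Psz c_LPK_Dua
theorem c_LPK_Plm : Pool.Agent.LPK.PlmStmt :=
  Pool.Agent.LPK.H75.plm c_LPK_Bdd c_LPK_Ftp c_LPK_Dua c_LPK_Psl c_LPK_Sum
theorem c_LPK_Mll : Pool.Agent.LPK.MllStmt :=
  Pool.Agent.LPK.H45.mll c_LPK_Plm c_LPK_Sum c_LPK_Dua
theorem c_LPK_Gpo : Pool.Agent.LPK.GpoStmt :=
  Pool.Agent.LPK.H46.gpo c_LPK_Plm
theorem c_LPK_Ps0 : Pool.Agent.LPK.Ps0Stmt :=
  Pool.Agent.LPK.H64.ps0 c_LPK_Sum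
theorem c_LPV_Wpo : Pool.Agent.LPV.WpoStmt :=
  Pool.Agent.LPV.H50W.wpo c_LPK_Dua c_LPK_Plm
theorem c_LPV_Tov : Pool.Agent.LPV.TovStmt :=
  Pool.Agent.LPV.H39.tov c_LPK_Dua c_LPK_Sum c_LPK_Mll c_LPK_Gpo c_LPK_Ps0 c_LPV_Psg c_LPV_Wsq c_LPV_Wsl c_LPV_Wpo c_LPV_Fsv
theorem c_LPV_Liv : Pool.Agent.LPV.LivStmt :=
  Pool.Agent.LPV.H81.liv c_LPK_Eva c_LPK_Dua
theorem c_LPV_Pav : Pool.Agent.LPV.PavStmt :=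
  Pool.Agent.LPV.H15.pav c_LPK_Eva c_LPK_Dua
theorem c_LPV_Ctv : Pool.Agent.LPV.CtvStmt :=
  Pool.Agent.LPV.H11.ctv c_LPK_Dua c_LPK_Spl c_LPV_Fsv c_LPV_Tov c_LPV_Liv c_LPV_Pav
theorem c_LPV_Upv : Pool.Agent.LPV.UpvStmt :=
  Pool.Agent.LPV.H23.upv c_LPK_Rnk c_LPK_Bas c_LPK_Scl c_LPV_Ctv
theorem c_LPK_Ps2 : Pool.Agent.LPK.Ps2Stmt :=
  Pool.Agent.LPK.H39.ps2 c_LPK_Sum
theorem c_LPK_Fsm : Pool.Agent.LPK.FsmStmt :=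
  Pool.Agent.LPK.H30.fsm c_LPK_Sum c_LPK_Ps2 c_LPK_Dua
theorem c_LPK_Had : Pool.Agent.LPK.HadStmt :=
  Pool.Agent.LPK.H97.had 
theorem c_LPK_Cbn : Pool.Agent.LPK.CbnStmt :=
  Pool.Agent.LPK.H54.cbn c_LPK_Dua c_LPK_Sum c_LPK_Had
theorem c_LPK_Tot : Pool.Agent.LPK.TotStmt :=
  Pool.Agent.LPK.H39T.tot c_LPK_Dua c_LPK_Sum c_LPK_Mll c_LPK_Gpo c_LPK_Ps0 c_LPK_Ps2 c_LPK_Cbn c_LPK_Fsm
theorem c_LPK_Lin : Pool.Agent.LPK.LinStmt :=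
  Pool.Agent.LPK.H81.lin c_LPK_Eva c_LPK_Dua
theorem c_LPK_Pai : Pool.Agent.LPK.PaiStmt :=
  Pool.Agent.LPK.H15.pai c_LPK_Eva c_LPK_Dua
theorem c_LPK_Ctr : Pool.Agent.LPK.CtrStmt :=
  Pool.Agent.LPK.H11.ctr c_LPK_Dua c_LPK_Spl c_LPK_Fsm c_LPK_Tot c_LPK_Lin c_LPK_Pai
theorem c_LPK_Upb : Pool.Agent.LPK.UpbStmt :=
  Pool.Agent.LPK.H23.upb c_LPK_Rnk c_LPK_Bas c_LPK_Scl c_LPK_Ctr

end Pool.Agent.LPV.H90C
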