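import Pool.Agent.LPV.Stmts
import Pool.Agent.Helper14_LOW.P22

/-!
# Final composition for S08123 (MP_37fa12_co, squad LPV), dimension 22

The bound for lattice packings of `ℝ^22` given by a certificate against the packing P22.
-/

set_option autoImplicit false

noncomputable section

open MeasureTheory Filter Topology

namespace Pool.Agent.LPV.H90

open Pool.Agent.LPK

/-- the statement of `S08123` -/
def Goal : Prop :=
    ∃ n : ℕ,
      (⨆ (L : AddSubgroup (EuclideanSpace ℝ (Fin n)))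
          (_ : (L : Set (EuclideanSpace ℝ (Fin n))).Pairwise (fun x y => 2 ≤ dist x y)),
          Filter.limsup (fun R : ℝ =>
            MeasureTheory.volume
                ((⋃ x ∈ (L : Set (EuclideanSpace ℝ (Fin n))), Metric.ball x 1) ∩
                  Metric.ball (0 : EuclideanSpace ℝ (Fin n)) R) /
              MeasureTheory.volume (Metric.ball (0 : EuclideanSpace ℝ (Fin n)) R))
            Filter.atTop)
      <
      (⨆ (X : Set (EuclideanSpace ℝ (Fin n)))
          (_ : X.Pairwise (fun x y => 2 ≤ dist x y)),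
          Filter.limsup (fun R : ℝ =>
            MeasureTheory.volume
                ((⋃ x ∈ X, Metric.ball x 1) ∩
                  Metric.ball (0 : EuclideanSpace ℝ (Fin n)) R) /
              MeasureTheory.volume (Metric.ball (0 : EuclideanSpace ℝ (Fin n)) R))
            Filter.atTop)

/-- A bound for the centre density of all lattice packings of `ℝ^22` below the one of P22. -/
theorem goal_of_bound (c : ℝ) (hc : c < Pool.Agent.H14LOW.d22)
    (hU : ∀ L : AddSubgroup (V 22), (L : Set (V 22)).Pairwise (fun x y => 2 ≤ dist x y) →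
      Filter.limsup (fun R : ℝ => volume ((⋃ x ∈ (L : Set (V 22)), Metric.ball x 1) ∩
        Metric.ball (0 : V 22) R) / volume (Metric.ball (0 : V 22) R)) atTop ≤
          ENNReal.ofReal c * volume (Metric.ball (0 : V 22) 1)) : Goal := by
  have h0 : volume (Metric.ball (0 : V 22) 1) ≠ 0 :=
    (Metric.measure_ball_pos volume (0 : V 22) one_pos).ne'
  have h1 : volume (Metric.ball (0 : V 22) 1) ≠ ⊤ := measure_ball_lt_top.ne
  have hd : 0 < Pool.Agent.H14LOW.d22 := by
    unfold Pool.Agent.H14LOW.d22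
    positivity
  refine ⟨22, lt_of_le_of_lt (iSup₂_le fun L hL => hU L hL)
    (lt_of_lt_of_le ?_ Pool.Agent.H14LOW.low22_sup)⟩
  exact (ENNReal.mul_lt_mul_iff_left h0 h1).2 ((ENNReal.ofReal_lt_ofReal_iff hd).2 hc)

/-- the numbers -/
theorem num {μ : ℝ} (h0 : 0 ≤ μ) (h : μ ≤ 1455 / 64) :
    (μ / (8 * Real.pi)) ^ (22 / 2) / 1 < Pool.Agent.H14LOW.d22 := by
  have hp : (3.1415 : ℝ) < Real.pi := Real.pi_gt_d4
  have h1 : μ / (8 * Real.pi) ≤ 1455 / 64 / (8 * 3.1415) := by
    apply div_le_div₀ (by norm_num) h (by norm_num)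
    linarith
  have h2 : 0 ≤ μ / (8 * Real.pi) := by positivity
  have h3 : (μ / (8 * Real.pi)) ^ 11 ≤ (1455 / 64 / (8 * 3.1415) : ℝ) ^ 11 :=
    pow_le_pow_left₀ h2 h1 11
  have h4 : √(3 : ℝ) ≤ 1.7321 := by
    rw [Real.sqrt_le_left (by norm_num)]
    norm_num
  have h5 : 0 < √(3 : ℝ) := by positivity
  have h6 : (11 ^ 11 / (2 ^ 23 * 3 ^ 10 * 1.7321) : ℝ) ≤ Pool.Agent.H14LOW.d22 := by
    unfold Pool.Agent.H14LOW.d22
    apply div_le_div_of_nonneg_left (by norm_num) (by positivity)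
    exact mul_le_mul_of_nonneg_left h4 (by norm_num)
  have h7 : (1455 / 64 / (8 * 3.1415) : ℝ) ^ 11 < 11 ^ 11 / (2 ^ 23 * 3 ^ 10 * 1.7321) := by
    norm_num
  have h8 : (22 / 2 : ℕ) = 11 := rfl
  rw [h8, div_one]
  exact h3.trans_lt (h7.trans_le h6)

/-- the numbers for `μ = 23`, `κ = 25/22` -/
theorem num23 : ((23 : ℝ) / (8 * Real.pi)) ^ (22 / 2) / (25 / 22) < Pool.Agent.H14LOW.d22 := by
  have hp : (3.1415 : ℝ) < Real.pi := Real.pi_gt_d4
  have h1 : (23 : ℝ) / (8 * Real.pi) ≤ 23 / (8 * 3.1415) := by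
    apply div_le_div₀ (by norm_num) le_rfl (by norm_num)
    linarith
  have h2 : 0 ≤ (23 : ℝ) / (8 * Real.pi) := by positivity
  have h3 : ((23 : ℝ) / (8 * Real.pi)) ^ 11 ≤ (23 / (8 * 3.1415) : ℝ) ^ 11 :=
    pow_le_pow_left₀ h2 h1 11
  have h4 : √(3 : ℝ) ≤ 1.7321 := by
    rw [Real.sqrt_le_left (by norm_num)]
    norm_num
  have h5 : 0 < √(3 : ℝ) := by positivity
  have h6 : (11 ^ 11 / (2 ^ 23 * 3 ^ 10 * 1.7321) : ℝ) ≤ Pool.Agent.H14LOW.d22 := by
    unfold Pool.Agent.H14LOW.d22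
    apply div_le_div_of_nonneg_left (by norm_num) (by positivity)
    exact mul_le_mul_of_nonneg_left h4 (by norm_num)
  have h7 : (23 / (8 * 3.1415) : ℝ) ^ 11 / (25 / 22) < 11 ^ 11 / (2 ^ 23 * 3 ^ 10 * 1.7321) := by
    norm_num
  have h8 : (22 / 2 : ℕ) = 11 := rfl
  rw [h8]
  exact (div_le_div_of_nonneg_right h3 (by norm_num)).trans_lt (h7.trans_le h6)

/-- The final step for `κ = 25/22`, `μ = 23`. -/
theorem fin23 (upv : UpvStmt) (D : DW) (ν : ℝ) (h : CertW 22 (25 / 22) D 23 ν)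
    (hν : ∀ b b' : Fin 22 → V 22, Du (25 / 22) b b' → Mu 23 b → Mu ν b') : Goal :=
  goal_of_bound _ num23 (upv 22 (25 / 22) D 23 ν h hν)

/-- The final step: a certificate in dimension `22` with `κ = 1` gives `S08123`. -/
theorem fin (upv : UpvStmt) (D : DW) (μ ν : ℝ) (h : CertW 22 1 D μ ν) (hμ : μ ≤ 1455 / 64)
    (hν : ∀ b b' : Fin 22 → V 22, Du 1 b b' → Mu μ b → Mu ν b') : Goal :=
  goal_of_bound _ (num h.pos.le hμ) (upv 22 1 D μ ν h hν)

/-- The final step for `ν = 0` (no condition on the dual minimum). -/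
theorem fin0 (upv : UpvStmt) (D : DW) (μ : ℝ) (h : CertW 22 1 D μ 0) (hμ : μ ≤ 1455 / 64) :
    Goal :=
  fin upv D μ 0 h hμ (fun _ _ _ _ _ _ => sq_nonneg _)

end Pool.Agent.LPV.H90
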