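import Pool.Agent.Helper90_LPV.Fin
import Pool.Agent.Helper84_LPK.DMN

/-!
# The minimum of the dual lattice for `κ = 25/22`, `μ = 23` (MP_37fa12_co, squad LPV)
-/

set_option autoImplicit false

noncomputable section

open MeasureTheory Filter Topology

namespace Pool.Agent.LPV.H90

open Pool.Agent.LPK

/-- a bound `D` for the centre density of the lattice packings of `ℝ^21` -/
def Cer21 (D : ℝ) : Prop := ∀ M : AddSubgroup (V 21),
  (M : Set (V 21)).Pairwise (fun x y => 2 ≤ dist x y) →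
    Filter.limsup (fun R : ℝ => volume ((⋃ x ∈ (M : Set (V 21)), Metric.ball x 1) ∩
      Metric.ball (0 : V 21) R) / volume (Metric.ball (0 : V 21) R)) atTop ≤
        ENNReal.ofReal D * volume (Metric.ball (0 : V 21) 1)

theorem nu5 (D : ℝ) (hD : 0 < D) (hD' : D ≤ 0.388) (H : Cer21 D) (b b' : Fin 22 → V 22)
    (hdu : Du (25 / 22) b b') (hmu : Mu 23 b) : Mu 5 b' := by
  have h1 := Pool.Agent.LPK.H84.dmn 21 (by norm_num) D hD H (25 / 22) 23 (by norm_num) b b' hdu hmu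
  intro a ha
  refine le_trans ?_ (h1 a ha)
  have hπ : 0 < 2 * Real.pi := by positivity
  have hp : Real.pi < 3.1416 := Real.pi_lt_d4
  have e : ((23 : ℝ) / 4) ^ 21 * (2 * Real.pi) ^ 2 /
      (D ^ 2 * ((25 / 22) ^ 2 * (2 * Real.pi) ^ (21 + 1))) =
      (23 / 4) ^ 21 / (D ^ 2 * (25 / 22) ^ 2 * (2 * Real.pi) ^ 20) := by
    rw [div_eq_div_iff (by positivity) (by positivity)]
    ring
  rw [e, le_div_iff₀ (by positivity)]
  have h2 : (2 * Real.pi) ^ 20 ≤ (2 * 3.1416 : ℝ) ^ 20 :=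
    pow_le_pow_left₀ hπ.le (by linarith) 20
  have h3 : D ^ 2 ≤ (0.388 : ℝ) ^ 2 := pow_le_pow_left₀ hD.le hD' 2
  have h4 : D ^ 2 * (25 / 22) ^ 2 * (2 * Real.pi) ^ 20 ≤
      (0.388 : ℝ) ^ 2 * (25 / 22) ^ 2 * (2 * 3.1416) ^ 20 :=
    mul_le_mul (mul_le_mul_of_nonneg_right h3 (by norm_num)) h2 (by positivity) (by norm_num)
  have h5 : 5 * ((0.388 : ℝ) ^ 2 * (25 / 22) ^ 2 * (2 * 3.1416) ^ 20) ≤ (23 / 4) ^ 21 := by
    norm_num
  linarith

/-- **The final step**: `κ = 25/22`, `μ = 23`, `ν = 5`. -/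
theorem final (upv : UpvStmt) (D : DW) (h : CertW 22 (25 / 22) D 23 5) (d : ℝ) (hd : 0 < d)
    (hd' : d ≤ 0.388) (H : Cer21 d) : Goal :=
  fin23 upv D 5 h (fun b b' hdu hmu => nu5 d hd hd' H b b' hdu hmu)

end Pool.Agent.LPV.H90
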