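import Pool.Agent.Helper90_LPV.Comp
import Pool.Agent.Helper90_LPV.Nu

/-!
# S08123 from a certificate (MP_37fa12_co, squad LPV)
-/

set_option autoImplicit false

namespace Pool.Agent.LPV.H90

open Pool.Agent.LPK

/-- `κ = 25/22`, `μ = 23`, `ν = 5`, with a bound for the lattice packings of `ℝ^21`. -/
theorem goal5 (D : DW) (h : CertW 22 (25 / 22) D 23 5) (d : ℝ) (hd : 0 < d) (hd' : d ≤ 0.388)
    (H : Cer21 d) : Goal :=
  final Pool.Agent.LPV.H90C.c_LPV_Upv D h d hd hd' H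

/-- `κ = 25/22`, `μ = 23`, `ν = 0`. -/
theorem goal0 (D : DW) (h : CertW 22 (25 / 22) D 23 0) : Goal :=
  fin23 Pool.Agent.LPV.H90C.c_LPV_Upv D 0 h (fun _ _ _ _ _ _ => sq_nonneg _)

end Pool.Agent.LPV.H90
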