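import Pool.Agent.Helper90_LPV.Final
import Pool.Agent.Helper17_LPC.Val21

/-!
# S08123 from one certificate (MP_37fa12_co, squad LPV)
-/

set_option autoImplicit false

namespace Pool.Agent.LPV.H90

open Pool.Agent.LPK

/-- `n = 22`, `κ = 25/22`, `μ = 23`, `ν = 5`: the certificate is the only thing missing. -/
theorem goal (D : DW) (h : CertW 22 (25 / 22) D 23 5) : Goal :=
  goal5 D h 0.3735 (by norm_num) (by norm_num) (fun M hM => Pool.Agent.LPC.H17.val21D M hM)

end Pool.Agent.LPV.H90
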